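import Pool.Agent.Run7.h574.FinalForms

/-!
# LERF free-by-cyclic groups which act on trees with cyclic edge stabilizers in the fibre
-/

set_option autoImplicit false

namespace Pool.Agent.Results.MP_288210_al.CyclicTreeActions

open Run7.h574.Spec

/-- Let `G` be a LERF free-by-cyclic group a subgroup `K` of finite index of which acts on a tree so
that the stabilizers of edges in the fibre are cyclic, and the stabilizers of the vertices are in
the hierarchy. Then an element outside the fibre of `G` centralizes the fibre, and `G` has no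
peripheral structure. -/
theorem result {n : ℕ} {G : Type} [Group G] (χ : G →* Multiplicative ℤ)
    (hχ : Function.Surjective χ) (hF : Nonempty (χ.ker ≃* FreeGroup (Fin n))) (hG : LERF G)
    (K : Subgroup G) (hK : K.FiniteIndex) {V : Type} [MulAction K V] (T : SimpleGraph V)
    (hT : CyclicAction (χ.comp K.subtype) T)
    (hv : ∀ v : V, ¬ IsCyclic ((χ.comp K.subtype).ker ⊓ MulAction.stabilizer K v : Subgroup K) →
      Hierarchy (MulAction.stabilizer K v)
        ((χ.comp K.subtype).comp (MulAction.stabilizer K v).subtype)) :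
    (∃ g : G, χ g ≠ 1 ∧ ∀ x ∈ χ.ker, g * x = x * g) ∧ ¬ PeripheralStructure G := by
  obtain ⟨e⟩ := hF
  have hne : ∃ g, χ g ≠ 1 := by
    obtain ⟨g, hg⟩ := hχ (Multiplicative.ofAdd 1)
    refine ⟨g, ?_⟩
    rw [hg]
    intro h
    have h1 : (1 : ℤ) = 0 := Multiplicative.ofAdd.injective h
    exact one_ne_zero h1
  obtain ⟨g, hg, hcom⟩ := Run7.h574.tree_final_fi χ e hne hG K hK hT hv
  refine ⟨⟨g, hg, hcom⟩, ?_⟩
  obtain ⟨v⟩ := hT.tree.connected.nonempty
  obtain ⟨f, hf, hfv⟩ := hT.noFixed v
  exact Run7.h574.no_peripherals_of_central χ e hg hcom (x := (f : G)) hf (by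
    intro h
    apply hfv
    have h1 : f = 1 := Subtype.ext h
    rw [h1, one_smul])

end Pool.Agent.Results.MP_288210_al.CyclicTreeActions
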