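import Pool.Agent.Run7.h574.FinalForms

/-!
# Homological rigidity of LERF free-by-cyclic groups
-/

set_option autoImplicit false

namespace Pool.Agent.Results.MP_288210_al.HomologicalRigidity

open Run7.h574.Spec

/-- Let `G` be a LERF free-by-cyclic group, `u` an element outside the fibre, and `A`, `C` two
finitely generated subgroups of the fibre normalized by `u`, the intersection of which has infinite
index in `C`. Then there is a subgroup `A₀` of finite index of `A` which contains `A ⊓ C` such that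
for all `x ∈ A₀`: a homomorphism to the integers on a subgroup `D` of finite index of the group
generated by `A` and `u` which vanishes on the elements of `A ⊓ C` and of `x (A ⊓ C) x⁻¹` in `D`
takes the same value at `u ^ m` and at `x u ^ m x⁻¹` whenever both are in `D`. -/
theorem result {n : ℕ} {G : Type} [Group G] (χ : G →* Multiplicative ℤ)
    (hF : Nonempty (χ.ker ≃* FreeGroup (Fin n))) (hG : LERF G)
    (A C : Subgroup G) (hA : A ≤ χ.ker) (hC : C ≤ χ.ker) (hAfg : A.FG) (hCfg : C.FG)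
    (u : G) (hu : χ u ≠ 1) (hAu : ∀ x, x ∈ A ↔ u * x * u⁻¹ ∈ A)
    (hCu : ∀ x, x ∈ C ↔ u * x * u⁻¹ ∈ C) (hidx : (A ⊓ C).relIndex C = 0) :
    ∃ A₀ : Subgroup G, A₀ ≤ A ∧ A ⊓ C ≤ A₀ ∧ A₀.relIndex A ≠ 0 ∧ ∀ x ∈ A₀, ∀ D : Subgroup G,
      D ≤ A ⊔ Subgroup.zpowers u → D.relIndex (A ⊔ Subgroup.zpowers u) ≠ 0 →
      ∀ β : D →* Multiplicative ℤ, (∀ l (h : l ∈ D), l ∈ A ⊓ C → β ⟨l, h⟩ = 1) →
        (∀ l ∈ A ⊓ C, ∀ h : x * l * x⁻¹ ∈ D, β ⟨x * l * x⁻¹, h⟩ = 1) →
        ∀ (m : ℤ) (h1 : u ^ m ∈ D) (h2 : x * u ^ m * x⁻¹ ∈ D),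
          β ⟨u ^ m, h1⟩ = β ⟨x * u ^ m * x⁻¹, h2⟩ := by
  obtain ⟨e⟩ := hF
  exact Run7.h574.rigid_pair_group χ e hG hA hC hAfg hCfg hu hAu hCu hidx

end Pool.Agent.Results.MP_288210_al.HomologicalRigidity
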