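import Pool.Agent.Run7.h574.FinalForms
import Pool.Agent.Run7.h574.PairG1

/-!
# Pairs of subgroups of the fibre normalized by the same element
-/

set_option autoImplicit false

namespace Pool.Agent.Results.MP_288210_al.InvariantPairs

open Run7.h574.Spec

/-- Let `G` be a LERF free-by-cyclic group, `u` an element outside the fibre, and `A`, `C` two
finitely generated subgroups of the fibre normalized by `u`, with a cyclic intersection of infinite
index in `C`. If `A` is cyclic or the group generated by `A` and `u` is in the hierarchy then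
`z * u ^ J` centralizes `A` for some `z` in the intersection and some `J ≠ 0`; if this holds for `C`
as well and the intersection has infinite index in `A` then `z * u ^ J` centralizes `A` and `C` for
some such `z` and `J`. -/
theorem result {n : ℕ} {G : Type} [Group G] (χ : G →* Multiplicative ℤ)
    (hF : Nonempty (χ.ker ≃* FreeGroup (Fin n))) (hG : LERF G)
    (A C : Subgroup G) (hA : A ≤ χ.ker) (hC : C ≤ χ.ker) (hAfg : A.FG) (hCfg : C.FG)
    (u : G) (hu : χ u ≠ 1) (hAu : ∀ x, x ∈ A ↔ u * x * u⁻¹ ∈ A)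
    (hCu : ∀ x, x ∈ C ↔ u * x * u⁻¹ ∈ C) (hcyc : IsCyclic (A ⊓ C : Subgroup G))
    (hidxC : (A ⊓ C).relIndex C = 0)
    (hTA : ¬ IsCyclic A → Hierarchy (A ⊔ Subgroup.zpowers u : Subgroup G)
      (χ.comp (A ⊔ Subgroup.zpowers u).subtype)) :
    (∃ (J : ℤ) (z : G), J ≠ 0 ∧ z ∈ A ⊓ C ∧ ∀ y ∈ A, (z * u ^ J) * y = y * (z * u ^ J)) ∧
    ((A ⊓ C).relIndex A = 0 →
      (¬ IsCyclic C → Hierarchy (C ⊔ Subgroup.zpowers u : Subgroup G)
        (χ.comp (C ⊔ Subgroup.zpowers u).subtype)) →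
      ∃ (J : ℤ) (z : G), J ≠ 0 ∧ z ∈ A ⊓ C ∧ (∀ y ∈ A, (z * u ^ J) * y = y * (z * u ^ J)) ∧
        ∀ y ∈ C, (z * u ^ J) * y = y * (z * u ^ J)) := by
  obtain ⟨e⟩ := hF
  have h1 := Run7.h574.pair_ok χ e hG hA hAfg hu hAu hTA
  constructor
  · obtain ⟨J, z, hJ, hz, h⟩ := Run7.h574.pair_group_one χ e hG hA hC hAfg hCfg hu hAu hCu hcyc
      hidxC h1
    exact ⟨J, z, hJ, hz, fun y hy => h y hy⟩
  · intro hidxA hTC
    have h2 := Run7.h574.pair_ok χ e hG hC hCfg hu hCu hTC
    obtain ⟨J, z, hJ, hz, h, h'⟩ := Run7.h574.pair_group χ e hG hA hC hAfg hCfg hu hAu hCu hcyc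
      hidxA hidxC h1 h2
    exact ⟨J, z, hJ, hz, fun y hy => h y hy, fun y hy => h' y hy⟩

end Pool.Agent.Results.MP_288210_al.InvariantPairs
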