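import Pool.Agent.Run7.h574.FinalForms

/-!
# Vertex groups of LERF free-by-cyclic groups acting on trees
-/

set_option autoImplicit false

namespace Pool.Agent.Results.MP_288210_al.VertexGroups

open Run7.h574.Spec

/-- Let a LERF free-by-cyclic group act on a tree so that the stabilizers of edges in the fibre are
cyclic. Let `v` be a vertex whose stabilizer is in the hierarchy and has a noncyclic intersection
with the fibre. Then an element outside the fibre fixes `v` and centralizes this intersection. -/
theorem result {n : ℕ} {G : Type} [Group G] (χ : G →* Multiplicative ℤ)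
    (hχ : Function.Surjective χ) (hF : Nonempty (χ.ker ≃* FreeGroup (Fin n))) (hG : LERF G)
    {V : Type} [MulAction G V] (T : SimpleGraph V) (hT : CyclicAction χ T) (v : V)
    (hcyc : ¬ IsCyclic (χ.ker ⊓ MulAction.stabilizer G v : Subgroup G))
    (hv : Hierarchy (MulAction.stabilizer G v) (χ.comp (MulAction.stabilizer G v).subtype)) :
    ∃ g : G, g • v = v ∧ χ g ≠ 1 ∧ ∀ x ∈ χ.ker, x • v = v → g * x = x * g := by
  obtain ⟨e⟩ := hF
  have hne : ∃ g, χ g ≠ 1 := by
    obtain ⟨g, hg⟩ := hχ (Multiplicative.ofAdd 1)
    refine ⟨g, ?_⟩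
    rw [hg]
    intro h
    have h1 : (1 : ℤ) = 0 := Multiplicative.ofAdd.injective h
    exact one_ne_zero h1
  exact Run7.h574.vertex_final χ e hne hG hT v hcyc hv

end Pool.Agent.Results.MP_288210_al.VertexGroups
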